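import Pool.Agent.Run7.h871.CS.Goal

/-!
Lower bound of the cluster size law above the critical point (part `S_LOWSUP` of the project CS of
helper871).
-/

set_option autoImplicit false
set_option maxHeartbeats 1000000

namespace Pool.Agent.Run7.h591.CS.Low

open Finset H974 Pool.Agent.H160R2.CV Pool.Agent.H160R2.CV.Quad CS871 T213 MeasureTheory

/-- crossings at the critical point -/
theorem crit : ∃ κ : ℝ, 0 < κ ∧ ∀ h : ℕ, 1 ≤ h → κ ≤ hh (1/2) (16 * h) h := by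
  obtain ⟨κ, a, C, hκ, ha, hC, hG⟩ := Pool.Agent.W424.NC.nearG
  refine ⟨κ, hκ, ?_⟩
  intro h h1
  obtain ⟨m, hm, hmn, hW, -, hcase⟩ := hG (1/2) h (by norm_num) le_rfl h1
  have hmh : m = h := by
    rcases hcase with h2 | h2
    · exact h2
    · exfalso
      have e2 : ((1:ℝ)/2 - 1/2)^(4/3 : ℝ) = 0 := by
        rw [sub_self]
        exact Real.zero_rpow (by norm_num)
      rw [e2, mul_zero, mul_zero] at h2
      linarith
  rw [← hmh]
  exact hW.pri m hm (by omega)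

/-- the two-point function above the critical point, through circuits at the critical point -/
theorem conn_sup {κ : ℝ} (hκ : 0 < κ) (hW : ∀ h : ℕ, 1 ≤ h → κ ≤ hh (1/2) (16 * h) h)
    {p : ℝ} (hp : 1/2 ≤ p) (h1 : p ≤ 1) {r : ℕ} (hr : 1 ≤ r) {x1 x2 : ℤ} (hx1 : |x1| ≤ r)
    (hx2 : |x2| ≤ r) :
    ((arm p (2 * r) * κ^4) * (arm p (2 * r) * κ^4)) * (κ * κ) ≤
      Pr (fun _ => p) (boxE (3 * r)) (TP (x1, x2)) := by
  have h0 : 0 ≤ p := by linarith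
  have ok := okq h0 h1
  have hx1' := abs_le.mp hx1
  have hx2' := abs_le.mp hx2
  have hpri : ∀ {w h : ℤ}, 0 < w → w ≤ 16 * r → (r:ℤ) ≤ h → κ ≤ hh p w h := by
    intro w h hw0 hw hh'
    refine (hW r hr).trans ((hh_mono_param (by norm_num) hp h1 _ _).trans ?_)
    apply hh_mono h0 h1 hw0 hw hh'
  obtain ⟨S, hS⟩ : ∃ S : Finset Edg, S = boxE (3 * r) := ⟨_, rfl⟩
  rw [← hS]
  have s1 : boxE (2 * r) ⊆ S := by rw [hS]; exact boxE_mono (by omega)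
  have s2 : RE (x1 - (2 * r : ℕ)) (x1 + (2 * r : ℕ)) (x2 - (2 * r : ℕ)) (x2 + (2 * r : ℕ)) ⊆ S := by
    rw [hS]
    unfold boxE
    apply RE_subset <;> (push_cast; omega)
  have e1 := pr_Arm p s1
  have e2 := pr_shift_arm p s2
  have hc0 : κ ≤ hh p (2 * ((2 * r : ℕ) : ℤ)) (((2 * r : ℕ) : ℤ) - r) := by
    apply hpri <;> (push_cast; omega)
  have c1 : κ^4 ≤ Pr (fun _ => p) S (Circ r ((2 * r : ℕ) : ℤ)) := by
    refine le_trans ?_ (pr_Circ h0 h1 (R1 := r) (R2 := ((2 * r : ℕ) : ℤ)) (by positivity)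
      (by push_cast; omega) s1)
    exact pow_le_pow_left₀ hκ.le hc0 _
  have c2 : κ^4 ≤ Pr (fun _ => p) S
      (fun F => Circ r ((2 * r : ℕ) : ℤ) ((trl (-x1) (-x2)).mp F)) := by
    rw [← LSym.pr]
    refine le_trans ?_ (pr_Circ h0 h1 (R1 := r) (R2 := ((2 * r : ℕ) : ℤ)) (by positivity)
      (by push_cast; omega) ?_)
    · exact pow_le_pow_left₀ hκ.le hc0 _
    · have h3 := LSym.mp_mono (trl (-x1) (-x2)) s2
      rw [trl_RE] at h3
      refine Finset.Subset.trans ?_ h3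
      apply RE_subset <;> omega
  have e5 : κ ≤ Pr (fun _ => p) S (LRc (min 0 x1 - 2 * r) (max 0 x1 + 2 * r) (-r) r) := by
    rw [pr_LRc p (LRE_subset_RE.trans (by
      rw [hS]; unfold boxE; apply RE_subset <;> (push_cast; omega)))]
    apply hpri <;> (push_cast; omega)
  have e6 : κ ≤ Pr (fun _ => p) S (TBc (x1 - r) (x1 + r) (min 0 x2 - 2 * r) (max 0 x2 + 2 * r)) := by
    rw [pr_TBc p (TBE_subset_RE.trans (by
      rw [hS]; unfold boxE; apply RE_subset <;> (push_cast; omega)))]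
    apply hpri <;> (push_cast; omega)
  have ha0 := arm_nonneg h0 h1 (2 * r)
  have i1 : IncrE S (fun F : Finset Edg => Arm (2 * r) F ∧ Circ r ((2 * r : ℕ) : ℤ) F) :=
    fun F G h _ hF => ⟨hF.1.mono h, hF.2.mono h⟩
  have i2 : IncrE S (fun F : Finset Edg => Arm (2 * r) ((trl (-x1) (-x2)).mp F) ∧
      Circ r ((2 * r : ℕ) : ℤ) ((trl (-x1) (-x2)).mp F)) :=
    fun F G h _ hF => ⟨hF.1.mono (LSym.mp_mono _ h), hF.2.mono (LSym.mp_mono _ h)⟩
  have g1 := harris2 ok (Arm_incr S (2 * r)) (B := Circ r ((2 * r : ℕ) : ℤ))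
    (fun F G h _ hF => hF.mono h) ha0 (by positivity) e1.ge c1
  have g2 := harris2 ok (S := S) (A := fun F => Arm (2 * r) ((trl (-x1) (-x2)).mp F))
    (B := fun F => Circ r ((2 * r : ℕ) : ℤ) ((trl (-x1) (-x2)).mp F))
    (fun F G h _ hF => hF.mono (LSym.mp_mono _ h)) (fun F G h _ hF => hF.mono (LSym.mp_mono _ h))
    ha0 (by positivity) e2.ge c2
  have g3 := harris2 ok i1 i2 (by positivity) (by positivity) g1 g2
  have g4 := harris2 ok (LRc_incr S (min 0 x1 - 2 * r) (max 0 x1 + 2 * r) (-r) r)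
    (TBc_incr S (x1 - r) (x1 + r) (min 0 x2 - 2 * r) (max 0 x2 + 2 * r)) hκ.le hκ.le e5 e6
  have g5 := harris2 ok (fun F G h h' hF => ⟨i1 F G h h' hF.1, i2 F G h h' hF.2⟩)
    (fun F G h _ hF => ⟨hF.1.mono h, hF.2.mono h⟩) (by positivity) (by positivity) g3 g4
  refine g5.trans (Pr_mono ok ?_)
  intro F _ h
  exact tp_of_conn hr h

/-- the size event in the box is increasing -/
theorem pr_size_mono {p q : ℝ} (h0 : 0 ≤ p) (hpq : p ≤ q) (h1 : q ≤ 1) (K : ℕ) (L : ℝ) :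
    Pr (fun _ => p) (boxE K) (fun F => L ≤ ((cF K F).card : ℝ)) ≤
      Pr (fun _ => q) (boxE K) (fun F => L ≤ ((cF K F).card : ℝ)) := by
  apply Pr_mono_param (okq h0 (hpq.trans h1)) (okq (h0.trans hpq) h1) (fun _ => hpq)
  intro F G hFG _ h
  refine h.trans ?_
  have : (cF K F).card ≤ (cF K G).card := by
    apply Finset.card_le_card
    intro x hx
    rw [mem_cF] at hx ⊢
    exact ⟨hx.1, hx.2.mono (by exact_mod_cast hFG)⟩
  exact_mod_cast this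

/-- a large cluster in the box and a closed circuit around it -/
theorem size_blk (p : unitInterval) {n K k : ℕ} {L : ℝ} (hnL : (n:ℝ) ≤ L) (hk : K < k) :
    Pr (fun _ => (p:ℝ)) (boxE K) (fun F => L ≤ ((cF K F).card : ℝ)) *
      Pr (fun _ => (p:ℝ)) (annE K k) (Blk K (k : ℤ)) ≤ szFin p n := by
  refine le_trans (event_blk p hk (fun F => L ≤ ((cF K F).card : ℝ))) ?_
  unfold szFin
  refine measureReal_mono ?_ (measure_ne_top _ _)
  rintro ω ⟨h1, h2⟩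
  refine ⟨?_, h2⟩
  have hsub : (↑(cF K (FF (boxE K) ω)) : Set Vtx) ⊆ cluster0 ω := by
    intro x hx
    rw [Finset.mem_coe, mem_cF] at hx
    have h3 := hx.2
    rw [FF_coe] at h3
    exact (open_reach ω _ _).mpr (h3.mono Set.inter_subset_left)
  have h3 := Set.ncard_le_ncard hsub h2
  rw [Set.ncard_coe_finset] at h3
  have h4 : (n:ℝ) ≤ ((cF K (FF (boxE K) ω)).card : ℝ) := hnL.trans h1
  have h5 : n ≤ (cF K (FF (boxE K) ω)).card := by exact_mod_cast h4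
  exact h5.trans h3

/-- one scale: the size event at scale `m`, radius `r`, cut by a closed circuit -/
theorem scale {c cb Cb : ℝ} (_hc : 0 < c) (hcb : 0 < cb)
    (hblk : ∀ (p : ℝ) (n : ℕ), 1/2 ≤ p → p ≤ 3/4 → 1 ≤ n →
      ∃ k : ℕ, n < k ∧ cb * Real.exp (-(Cb * (n * (p - 1/2)^(4/3 : ℝ)))) ≤
        Pr (fun _ => p) (annE n k) (Blk n (k : ℤ)))
    (p : unitInterval) (hp : 1/2 ≤ (p:ℝ)) (hp1 : (p:ℝ) ≤ 3/4) {m r n : ℕ} (hr : 1 ≤ r)
    (hn : (n:ℝ) ≤ c * (r : ℝ) ^ 2 * (m : ℝ) ^ (-(5/48) : ℝ))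
    (h : c * (m : ℝ) ^ (-(5/48) : ℝ) ≤ Pr (fun _ => (p:ℝ)) (boxE (3 * r))
      (fun F => c * (r : ℝ) ^ 2 * (m : ℝ) ^ (-(5/48) : ℝ) ≤ ((cF (3 * r) F).card : ℝ))) :
    c * (m : ℝ) ^ (-(5/48) : ℝ) * (cb * Real.exp (-(3 * Cb * (r * ((p:ℝ) - 1/2)^(4/3 : ℝ))))) ≤
      szFin p n := by
  obtain ⟨k, hk, hb⟩ := hblk p (3 * r) hp hp1 (by omega)
  refine le_trans ?_ (size_blk p hn hk)
  have e : Cb * (((3 * r : ℕ) : ℝ) * ((p:ℝ) - 1/2)^(4/3 : ℝ)) =
      3 * Cb * (r * ((p:ℝ) - 1/2)^(4/3 : ℝ)) := by push_cast; ring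
  rw [e] at hb
  exact mul_le_mul h hb (by positivity) (Pr_nonneg (okq p.2.1 p.2.2) _ _)

/-- the second moment method with a constant at most one -/
theorem snd_le (hS : S_SND) {A b : ℝ} (hA : 1 ≤ A) (hb : 0 < b) : ∃ c : ℝ, 0 < c ∧ c ≤ 1 ∧
    ∀ (p : ℝ) (m r : ℕ), 0 ≤ p → p ≤ 1 → 1 ≤ m → m ≤ r → ArmUp p A m →
    (∀ x : Vtx, r < 2 * nv x → nv x ≤ r → b * (m : ℝ) ^ (-(5/24) : ℝ) ≤
      Pr (fun _ => p) (boxE (3 * r)) (TP x)) →
    c * (m : ℝ) ^ (-(5/48) : ℝ) ≤ Pr (fun _ => p) (boxE (3 * r))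
      (fun F => c * (r : ℝ) ^ 2 * (m : ℝ) ^ (-(5/48) : ℝ) ≤ ((cF (3 * r) F).card : ℝ)) := by
  obtain ⟨c, hc, h⟩ := hS A b hA hb
  refine ⟨min c 1, by positivity, min_le_right _ _, ?_⟩
  intro p m r h0 h1 hm hmr hUp h2
  have h3 := h p m r h0 h1 hm hmr hUp h2
  have hmp : 0 ≤ (m : ℝ) ^ (-(5/48) : ℝ) := by positivity
  refine (mul_le_mul_of_nonneg_right (min_le_left _ _) hmp).trans (h3.trans ?_)
  apply Pr_mono (okq h0 h1)
  intro F _ h4
  refine le_trans ?_ h4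
  apply mul_le_mul_of_nonneg_right _ hmp
  exact mul_le_mul_of_nonneg_right (min_le_left _ _) (by positivity)

theorem abs_of_nv {x : Vtx} {r : ℕ} (h : nv x ≤ r) : |x.1| ≤ r ∧ |x.2| ≤ r := by
  unfold nv at h
  rw [abs_le, abs_le]
  omega

/-- **LOWSUP**: lower bound of the cluster size law above the critical point. -/
theorem t_lowsup (hS : S_SND) : S_LOWSUP := by
  obtain ⟨A1, hA1, hUp1⟩ := armUp_sub
  obtain ⟨A2, hA2, hUp2⟩ := armUp_sup
  obtain ⟨b1, C1, hb1, hC1, htp⟩ := tp_lower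
  obtain ⟨cb, Cb, hcb, hCb, hblk⟩ := blk_lower
  obtain ⟨cθ, Cθ, hcθ, hCθ, hθ⟩ := theta_bounds
  obtain ⟨κ, hκ, hcr⟩ := crit
  obtain ⟨c1, hc1, hc11, hs1⟩ := snd_le hS hA1 hb1
  obtain ⟨b2, hb2⟩ : ∃ b2 : ℝ, b2 = ((cθ * (2:ℝ) ^ (-(5/48) : ℝ)) * κ^4) *
    ((cθ * (2:ℝ) ^ (-(5/48) : ℝ)) * κ^4) * (κ * κ) := ⟨_, rfl⟩
  have hb20 : 0 < b2 := by rw [hb2]; positivity
  obtain ⟨c2, hc2, hc21, hs2⟩ := snd_le hS hA2 hb20
  obtain ⟨D, hD⟩ : ∃ D : ℝ, D = (1 / c1) ^ (48/91 : ℝ) := ⟨_, rfl⟩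
  have hD1 : 1 ≤ D := by
    rw [hD]
    apply Real.one_le_rpow _ (by norm_num)
    rw [le_div_iff₀ hc1]; linarith
  have hD0 : 0 < D := by linarith
  have hDc : D ^ (91/48 : ℝ) = 1 / c1 := by
    rw [hD, ← Real.rpow_mul (by positivity)]; norm_num
  obtain ⟨E, hE⟩ : ∃ E : ℝ, E = Real.sqrt (1 / c2) := ⟨_, rfl⟩
  have hE1 : 1 ≤ E := by
    rw [hE]
    apply Real.le_sqrt_of_sq_le
    rw [le_div_iff₀ hc2]; linarith
  have hE0 : 0 < E := by linarith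
  have hEE : E * E = 1 / c2 := by rw [hE]; exact Real.mul_self_sqrt (by positivity)
  refine ⟨min (c1 * (2 * D) ^ (-(5/48) : ℝ) * cb * Real.exp (-(6 * Cb * D))) (c2 * cb),
    12 * Cb * E, by positivity, by positivity, ?_⟩
  intro p hp hp1 n hn
  have h0 := p.2.1
  have h1 := p.2.2
  have ok := okq h0 h1
  have hn0 : (0:ℝ) < n := by exact_mod_cast hn
  have hn1 : (1:ℝ) ≤ n := by exact_mod_cast hn
  have hnp : 0 < (n:ℝ) ^ (-(5/91) : ℝ) := by positivity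
  have hs0 : 0 < (p:ℝ) - 1/2 := by linarith
  obtain ⟨t, ht⟩ : ∃ t : ℝ, t = ((p:ℝ) - 1/2) ^ (4/3 : ℝ) := ⟨_, rfl⟩
  have ht0 : 0 < t := by rw [ht]; positivity
  have ht1 : t ≤ 1 := by
    rw [ht]; exact Real.rpow_le_one hs0.le (by linarith) (by norm_num)
  have e36 : ((p:ℝ) - 1/2) ^ (91/36 : ℝ) = t ^ (91/48 : ℝ) := by
    rw [ht, ← Real.rpow_mul hs0.le]; norm_num
  have e5 : ((p:ℝ) - 1/2) ^ (5/36 : ℝ) = t ^ (5/48 : ℝ) := by
    rw [ht, ← Real.rpow_mul hs0.le]; norm_num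
  rw [e36]
  -- the characteristic length
  obtain ⟨m, hm⟩ : ∃ m : ℕ, m = ⌊1 / t⌋₊ := ⟨_, rfl⟩
  have h1t : 1 ≤ 1 / t := by rw [le_div_iff₀ ht0, one_mul]; exact ht1
  have hm1 : 1 ≤ m := by rw [hm]; exact Nat.le_floor (by exact_mod_cast h1t)
  have hmt : (m:ℝ) ≤ 1 / t := by rw [hm]; exact Nat.floor_le (by positivity)
  have htm : 1 / t < m + 1 := by rw [hm]; exact Nat.lt_floor_add_one _
  have hm1' : (1:ℝ) ≤ m := by exact_mod_cast hm1
  have hm0 : (0:ℝ) < m := by linarith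
  have hMt : (m:ℝ) * t ≤ 1 := by rwa [le_div_iff₀ ht0] at hmt
  have hMt2 : 1 ≤ (2 * (m:ℝ)) * t := by
    have h3 : 1 / t ≤ 2 * m := by linarith
    rwa [div_le_iff₀ ht0] at h3
  obtain ⟨y, hy⟩ : ∃ y : ℝ, y = Real.sqrt (n * t ^ (91/48 : ℝ)) := ⟨_, rfl⟩
  have hy0 : 0 ≤ y := by rw [hy]; exact Real.sqrt_nonneg _
  rw [← hy]
  rcases lt_or_ge (n:ℝ) ((m:ℝ) ^ (91/48 : ℝ)) with hlt | hge
  · -- sizes below the characteristic one
    obtain ⟨x, hx⟩ : ∃ x : ℝ, x = (n:ℝ) ^ (48/91 : ℝ) := ⟨_, rfl⟩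
    have hx1 : 1 ≤ x := by rw [hx]; exact Real.one_le_rpow hn1 (by norm_num)
    have hx0 : 0 < x := by linarith
    have hxn : x ^ (91/48 : ℝ) = n := by
      rw [hx, ← Real.rpow_mul hn0.le]; norm_num
    have hxm : x ≤ m := by
      have h3 : x ≤ ((m:ℝ) ^ (91/48 : ℝ)) ^ (48/91 : ℝ) := by
        rw [hx]; exact Real.rpow_le_rpow hn0.le hlt.le (by norm_num)
      rw [← Real.rpow_mul hm0.le] at h3
      norm_num at h3
      exact h3
    have hDx : 1 ≤ D * x := by nlinarith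
    obtain ⟨r, hr⟩ : ∃ r : ℕ, r = ⌈D * x⌉₊ := ⟨_, rfl⟩
    have hr2 : D * x ≤ r := by rw [hr]; exact Nat.le_ceil _
    have hr3 : (r:ℝ) ≤ 2 * D * x := by
      have h3 : (r:ℝ) < D * x + 1 := by rw [hr]; exact Nat.ceil_lt_add_one (by positivity)
      linarith
    have hr1' : (1:ℝ) ≤ r := hDx.trans hr2
    have hr1 : 1 ≤ r := by exact_mod_cast hr1'
    have hr0 : (0:ℝ) < r := by linarith
    have e91 : c1 * (r : ℝ) ^ 2 * (r : ℝ) ^ (-(5/48) : ℝ) = c1 * (r:ℝ) ^ (91/48 : ℝ) := by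
      have h3 : (r:ℝ) ^ 2 = (r:ℝ) ^ (2 : ℝ) := by
        rw [← Real.rpow_natCast]; norm_num
      rw [mul_assoc, h3, ← Real.rpow_add hr0]; norm_num
    have hnr : (n:ℝ) ≤ c1 * (r : ℝ) ^ 2 * (r : ℝ) ^ (-(5/48) : ℝ) := by
      rw [e91]
      have h3 : (D * x) ^ (91/48 : ℝ) ≤ (r:ℝ) ^ (91/48 : ℝ) :=
        Real.rpow_le_rpow (by positivity) hr2 (by norm_num)
      rw [Real.mul_rpow hD0.le hx0.le, hDc, hxn] at h3
      have h4 := mul_le_mul_of_nonneg_left h3 hc1.le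
      have e : c1 * (1 / c1 * (n:ℝ)) = n := by field_simp
      rw [e] at h4
      exact h4
    have e2 : ((1:ℝ)/2 - 1/2)^(4/3 : ℝ) = 0 := by
      rw [sub_self]
      exact Real.zero_rpow (by norm_num)
    have h5 := hs1 (1/2) r r (by norm_num) (by norm_num) hr1 le_rfl
      (hUp1 _ _ (by norm_num) le_rfl) (by
        intro z _ hz
        obtain ⟨k1, k2⟩ := abs_of_nv hz
        have h4 := htp (1/2) r z.1 z.2 (by norm_num) le_rfl hr1 k1 k2
        rw [e2, mul_zero, mul_zero, neg_zero, Real.exp_zero, mul_one] at h4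
        exact h4)
    have h6 := h5.trans (pr_size_mono (by norm_num) hp.le h1 (3 * r) _)
    have h7 := scale hc1 hcb hblk p hp.le hp1 hr1 hnr h6
    rw [← ht] at h7
    refine le_trans ?_ h7
    have h8 : (2 * D) ^ (-(5/48) : ℝ) * (n:ℝ) ^ (-(5/91) : ℝ) ≤ (r:ℝ) ^ (-(5/48) : ℝ) := by
      have e : (2 * D) ^ (-(5/48) : ℝ) * (n:ℝ) ^ (-(5/91) : ℝ) = (2 * D * x) ^ (-(5/48) : ℝ) := by
        rw [Real.mul_rpow (by positivity) hx0.le, hx, ← Real.rpow_mul hn0.le]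
        norm_num
      rw [e]
      exact Real.rpow_le_rpow_of_nonpos hr0 hr3 (by norm_num)
    have h9 : Real.exp (-(6 * Cb * D)) ≤ Real.exp (-(3 * Cb * (r * t))) := by
      apply Real.exp_le_exp.mpr
      have h10 : (r:ℝ) * t ≤ 2 * D := by
        calc (r:ℝ) * t ≤ (2 * D * x) * t := mul_le_mul_of_nonneg_right hr3 ht0.le
          _ ≤ (2 * D * m) * t := by
              apply mul_le_mul_of_nonneg_right _ ht0.le
              exact mul_le_mul_of_nonneg_left hxm (by positivity)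
          _ = 2 * D * (m * t) := by ring
          _ ≤ 2 * D * 1 := mul_le_mul_of_nonneg_left hMt (by positivity)
          _ = 2 * D := mul_one _
      have := mul_le_mul_of_nonneg_left h10 (show 0 ≤ 3 * Cb by positivity)
      linarith
    have hexp1 : Real.exp (-(12 * Cb * E * y)) ≤ 1 := by
      rw [Real.exp_le_one_iff]
      have : 0 ≤ 12 * Cb * E * y := by positivity
      linarith
    calc min (c1 * (2 * D) ^ (-(5/48) : ℝ) * cb * Real.exp (-(6 * Cb * D))) (c2 * cb) *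
          (n:ℝ) ^ (-(5/91) : ℝ) * Real.exp (-(12 * Cb * E * y))
        ≤ min (c1 * (2 * D) ^ (-(5/48) : ℝ) * cb * Real.exp (-(6 * Cb * D))) (c2 * cb) *
          (n:ℝ) ^ (-(5/91) : ℝ) * 1 := mul_le_mul_of_nonneg_left hexp1 (by positivity)
      _ ≤ (c1 * (2 * D) ^ (-(5/48) : ℝ) * cb * Real.exp (-(6 * Cb * D))) *
          (n:ℝ) ^ (-(5/91) : ℝ) * 1 := by
          rw [mul_one, mul_one]
          exact mul_le_mul_of_nonneg_right (min_le_left _ _) hnp.le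
      _ = c1 * ((2 * D) ^ (-(5/48) : ℝ) * (n:ℝ) ^ (-(5/91) : ℝ)) *
          (cb * Real.exp (-(6 * Cb * D))) := by ring
      _ ≤ c1 * (r:ℝ) ^ (-(5/48) : ℝ) * (cb * Real.exp (-(3 * Cb * (r * t)))) := by
          apply mul_le_mul (mul_le_mul_of_nonneg_left h8 hc1.le)
            (mul_le_mul_of_nonneg_left h9 hcb.le) (by positivity) (by positivity)
  · -- sizes above the characteristic one
    have hMV : 0 < (m:ℝ) ^ (91/48 : ℝ) := by positivity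
    obtain ⟨s, hs⟩ : ∃ s : ℝ, s = Real.sqrt (n / (m:ℝ) ^ (91/48 : ℝ)) := ⟨_, rfl⟩
    have hss : s * s = n / (m:ℝ) ^ (91/48 : ℝ) := by
      rw [hs]; exact Real.mul_self_sqrt (by positivity)
    have hs1 : 1 ≤ s := by
      rw [hs]
      apply Real.le_sqrt_of_sq_le
      rw [le_div_iff₀ hMV]; linarith
    have hs00 : 0 < s := by linarith
    have hEs : 1 ≤ E * s := by nlinarith
    have hEms : (m:ℝ) ≤ E * m * s := by
      calc (m:ℝ) = 1 * m := (one_mul _).symm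
        _ ≤ (E * s) * m := mul_le_mul_of_nonneg_right hEs hm0.le
        _ = _ := by ring
    obtain ⟨r, hr⟩ : ∃ r : ℕ, r = ⌈E * m * s⌉₊ := ⟨_, rfl⟩
    have hr2 : E * m * s ≤ r := by rw [hr]; exact Nat.le_ceil _
    have hr3 : (r:ℝ) ≤ 2 * E * m * s := by
      have h3 : (r:ℝ) < E * m * s + 1 := by rw [hr]; exact Nat.ceil_lt_add_one (by positivity)
      linarith
    have hmr : m ≤ r := by exact_mod_cast hEms.trans hr2
    have hr1 : 1 ≤ r := hm1.trans hmr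
    have hr0 : (0:ℝ) < r := by exact_mod_cast hr1
    have hnr : (n:ℝ) ≤ c2 * (r : ℝ) ^ 2 * (m : ℝ) ^ (-(5/48) : ℝ) := by
      have e3 : (m:ℝ) ^ 2 * (m:ℝ) ^ (-(5/48) : ℝ) = (m:ℝ) ^ (91/48 : ℝ) := by
        have h3 : (m:ℝ) ^ 2 = (m:ℝ) ^ (2 : ℝ) := by
          rw [← Real.rpow_natCast]; norm_num
        rw [h3, ← Real.rpow_add hm0]; norm_num
      have e : c2 * (E * m * s) ^ 2 * (m : ℝ) ^ (-(5/48) : ℝ) = n := by
        calc c2 * (E * m * s) ^ 2 * (m : ℝ) ^ (-(5/48) : ℝ)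
            = c2 * (E * E) * (s * s) * ((m:ℝ) ^ 2 * (m:ℝ) ^ (-(5/48) : ℝ)) := by ring
          _ = c2 * (1 / c2) * (n / (m:ℝ) ^ (91/48 : ℝ)) * (m:ℝ) ^ (91/48 : ℝ) := by
              rw [hEE, hss, e3]
          _ = n := by field_simp
      calc (n:ℝ) = c2 * (E * m * s) ^ 2 * (m : ℝ) ^ (-(5/48) : ℝ) := e.symm
        _ ≤ c2 * (r : ℝ) ^ 2 * (m : ℝ) ^ (-(5/48) : ℝ) := by
            apply mul_le_mul_of_nonneg_right _ (by positivity)
            apply mul_le_mul_of_nonneg_left _ hc2.le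
            exact pow_le_pow_left₀ (by positivity) hr2 2
    have harm : (cθ * (2:ℝ) ^ (-(5/48) : ℝ)) * (m:ℝ) ^ (-(5/48) : ℝ) ≤ arm p (2 * r) := by
      refine le_trans ?_ ((hθ p hp).1.trans (theta_le_arm p (2 * r)))
      rw [e5, mul_assoc]
      apply mul_le_mul_of_nonneg_left _ hcθ.le
      rw [← Real.mul_rpow (by norm_num) hm0.le]
      have h3 : (1:ℝ) / t ≤ 2 * m := by
        rw [div_le_iff₀ ht0]; exact hMt2
      calc (2 * (m:ℝ)) ^ (-(5/48) : ℝ) ≤ (1 / t) ^ (-(5/48) : ℝ) :=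
            Real.rpow_le_rpow_of_nonpos (by positivity) h3 (by norm_num)
        _ = t ^ (5/48 : ℝ) := by
            rw [one_div, Real.inv_rpow ht0.le, Real.rpow_neg ht0.le, inv_inv]
    have h5 := hs2 p m r h0 h1 hm1 hmr (hUp2 p m hp.le h1 (by rw [← ht]; exact hMt)) (by
        intro z _ hz
        obtain ⟨k1, k2⟩ := abs_of_nv hz
        have h4 := conn_sup hκ hcr hp.le h1 hr1 k1 k2
        refine le_trans ?_ h4
        have e24 : (m:ℝ) ^ (-(5/24) : ℝ) = (m:ℝ) ^ (-(5/48) : ℝ) * (m:ℝ) ^ (-(5/48) : ℝ) := by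
          rw [← Real.rpow_add hm0]; norm_num
        have h6 : (cθ * (2:ℝ) ^ (-(5/48) : ℝ)) * (m:ℝ) ^ (-(5/48) : ℝ) * κ^4 ≤
            arm p (2 * r) * κ^4 := mul_le_mul_of_nonneg_right harm (by positivity)
        have h7 : 0 ≤ (cθ * (2:ℝ) ^ (-(5/48) : ℝ)) * (m:ℝ) ^ (-(5/48) : ℝ) * κ^4 := by
          positivity
        calc b2 * (m:ℝ) ^ (-(5/24) : ℝ) = (((cθ * (2:ℝ) ^ (-(5/48) : ℝ)) *
              (m:ℝ) ^ (-(5/48) : ℝ) * κ^4) * ((cθ * (2:ℝ) ^ (-(5/48) : ℝ)) *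
              (m:ℝ) ^ (-(5/48) : ℝ) * κ^4)) * (κ * κ) := by rw [hb2, e24]; ring
          _ ≤ _ := mul_le_mul_of_nonneg_right (mul_le_mul h6 h6 h7 (h7.trans h6)) (by positivity))
    have h7 := scale hc2 hcb hblk p hp.le hp1 hr1 hnr h5
    rw [← ht] at h7
    refine le_trans ?_ h7
    have h8 : (n:ℝ) ^ (-(5/91) : ℝ) ≤ (m:ℝ) ^ (-(5/48) : ℝ) := by
      have e : (m:ℝ) ^ (-(5/48) : ℝ) = ((m:ℝ) ^ (91/48 : ℝ)) ^ (-(5/91) : ℝ) := by
        rw [← Real.rpow_mul hm0.le]; norm_num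
      rw [e]
      exact Real.rpow_le_rpow_of_nonpos hMV hge (by norm_num)
    have hsy : s ≤ 2 * y := by
      rw [hs, hy]
      have e4 : Real.sqrt 4 = 2 := by
        rw [show (4:ℝ) = 2 * 2 by norm_num]
        exact Real.sqrt_mul_self (by norm_num)
      have e : 2 * Real.sqrt (n * t ^ (91/48 : ℝ)) = Real.sqrt (4 * (n * t ^ (91/48 : ℝ))) := by
        rw [Real.sqrt_mul (by norm_num : (0:ℝ) ≤ 4) (n * t ^ (91/48 : ℝ)), e4]
      rw [e]
      apply Real.sqrt_le_sqrt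
      rw [div_le_iff₀ hMV]
      have h3 : 1 ≤ ((2 * (m:ℝ)) * t) ^ (91/48 : ℝ) := Real.one_le_rpow hMt2 (by norm_num)
      rw [Real.mul_rpow (by positivity) ht0.le, Real.mul_rpow (by norm_num) hm0.le] at h3
      have h4 : (2:ℝ) ^ (91/48 : ℝ) ≤ 4 := by
        calc (2:ℝ) ^ (91/48 : ℝ) ≤ 2 ^ (2:ℝ) :=
              Real.rpow_le_rpow_of_exponent_le (by norm_num) (by norm_num)
          _ = 4 := by
              rw [show (2:ℝ) = ((2:ℕ) : ℝ) by norm_num, Real.rpow_natCast]; norm_num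
      have h5 : 0 ≤ (m:ℝ) ^ (91/48 : ℝ) * t ^ (91/48 : ℝ) := by positivity
      have h6 : 1 ≤ 4 * ((m:ℝ) ^ (91/48 : ℝ) * t ^ (91/48 : ℝ)) := by
        refine h3.trans ?_
        rw [mul_assoc]
        exact mul_le_mul_of_nonneg_right h4 h5
      calc (n:ℝ) = n * 1 := (mul_one _).symm
        _ ≤ n * (4 * ((m:ℝ) ^ (91/48 : ℝ) * t ^ (91/48 : ℝ))) :=
            mul_le_mul_of_nonneg_left h6 hn0.le
        _ = _ := by ring
    have h9 : Real.exp (-(12 * Cb * E * y)) ≤ Real.exp (-(3 * Cb * (r * t))) := by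
      apply Real.exp_le_exp.mpr
      have h10 : (r:ℝ) * t ≤ 4 * E * y := by
        calc (r:ℝ) * t ≤ (2 * E * m * s) * t := mul_le_mul_of_nonneg_right hr3 ht0.le
          _ = 2 * E * s * (m * t) := by ring
          _ ≤ 2 * E * s * 1 := mul_le_mul_of_nonneg_left hMt (by positivity)
          _ = 2 * E * s := mul_one _
          _ ≤ 2 * E * (2 * y) := mul_le_mul_of_nonneg_left hsy (by positivity)
          _ = _ := by ring
      have := mul_le_mul_of_nonneg_left h10 (show 0 ≤ 3 * Cb by positivity)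
      linarith
    calc min (c1 * (2 * D) ^ (-(5/48) : ℝ) * cb * Real.exp (-(6 * Cb * D))) (c2 * cb) *
          (n:ℝ) ^ (-(5/91) : ℝ) * Real.exp (-(12 * Cb * E * y))
        ≤ (c2 * cb) * (n:ℝ) ^ (-(5/91) : ℝ) * Real.exp (-(12 * Cb * E * y)) := by
          apply mul_le_mul_of_nonneg_right _ (Real.exp_pos _).le
          exact mul_le_mul_of_nonneg_right (min_le_right _ _) hnp.le
      _ = (c2 * (n:ℝ) ^ (-(5/91) : ℝ)) * (cb * Real.exp (-(12 * Cb * E * y))) := by ring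
      _ ≤ c2 * (m:ℝ) ^ (-(5/48) : ℝ) * (cb * Real.exp (-(3 * Cb * (r * t)))) := by
          apply mul_le_mul (mul_le_mul_of_nonneg_left h8 hc2.le)
            (mul_le_mul_of_nonneg_left h9 hcb.le) (by positivity) (by positivity)

end Pool.Agent.Run7.h591.CS.Low
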