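import Pool.Agent.Run7.h871.CS.Base

/-!
Second moment method for the cluster of the origin (part `S_SND` of the project CS of helper871).
-/

set_option autoImplicit false

namespace Pool.Agent.Run7.h591.CS

open Finset H974 Pool.Agent.H160R2.CV Pool.Agent.H160R2.CV.Quad CS871

/-- the second moment method with a bound for the probability that `X` is not zero -/
theorem second_moment {E : Type*} [DecidableEq E] {p : E → ℝ} (hp : Ok p) (S : Finset E)
    (X : Finset E → ℝ) (hX : ∀ F, 0 ≤ X F) {U M V : ℝ} (hU : 0 < U) (hM : 0 ≤ M)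
    (h1 : M ≤ Ex p S X) (h2 : Ex p S (fun F => (X F) ^ 2) ≤ V)
    (h3 : Pr p S (fun F => 0 < X F) ≤ U) :
    M ^ 2 ≤ 4 * (V * Pr p S (fun F => M / (2 * U) ≤ X F)) := by
  set t : ℝ := M / (2 * U) with ht
  have ht0 : 0 ≤ t := by positivity
  have htU : t * U = M / 2 := by rw [ht]; field_simp
  have k1 : Ex p S X ≤ Ex p S (fun F => t * ind (0 < X F) + X F * ind (t ≤ X F)) := by
    apply Ex_mono hp
    intro F _
    by_cases c1 : t ≤ X F
    · rw [ind_of c1]
      have := ind_nonneg (0 < X F)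
      nlinarith [mul_nonneg ht0 this]
    · rw [ind_not_of c1]
      rcases (hX F).eq_or_lt with c2 | c2
      · rw [← c2]; rw [ind_not_of (lt_irrefl _)]; simp
      · rw [ind_of c2]; push Not at c1; linarith
  have k2 : Ex p S (fun F => t * ind (0 < X F) + X F * ind (t ≤ X F)) =
      t * Pr p S (fun F => 0 < X F) + Ex p S (fun F => X F * ind (t ≤ X F)) := by
    rw [Ex_add, Ex_mul_left]; rfl
  have k3 : t * Pr p S (fun F => 0 < X F) ≤ M / 2 := by
    rw [← htU]; exact mul_le_mul_of_nonneg_left h3 ht0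
  have k4 : M / 2 ≤ Ex p S (fun F => X F * ind (t ≤ X F)) := by linarith
  have k5 := Ex_cs hp S X (fun F => ind (t ≤ X F))
  have k6 : Ex p S (fun F => (ind (t ≤ X F)) ^ 2) = Pr p S (fun F => t ≤ X F) := by
    unfold Pr
    apply Ex_congr
    intro F _
    rw [pow_two, ind_sq]
  rw [k6] at k5
  have k7 : 0 ≤ Pr p S (fun F => t ≤ X F) := Pr_nonneg hp _ _
  have k8 : Ex p S (fun F => (X F) ^ 2) * Pr p S (fun F => t ≤ X F) ≤
      V * Pr p S (fun F => t ≤ X F) := mul_le_mul_of_nonneg_right h2 k7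
  have k9 : (M / 2) ^ 2 ≤ (Ex p S (fun F => X F * ind (t ≤ X F))) ^ 2 :=
    pow_le_pow_left₀ (by positivity) k4 2
  nlinarith [k5, k8, k9]

theorem mem_bxn {n : ℕ} {v : Vtx} : v ∈ bx n ↔ nv v ≤ n := by
  unfold bx nv
  rw [Finset.mem_product, Finset.mem_Icc, Finset.mem_Icc]
  omega

theorem card_bxn (n : ℕ) : (bx n).card = (2 * n + 1) ^ 2 := by
  unfold bx
  rw [Finset.card_product, Int.card_Icc]
  have : ((n : ℤ) + 1 - -(n : ℤ)).toNat = 2 * n + 1 := by omega
  rw [this]; ring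

/-- the outer half of the box of radius `r` -/
noncomputable def Dr (r : ℕ) : Finset Vtx := (bx r).filter (fun x => r < 2 * nv x)

theorem mem_Dr {r : ℕ} {x : Vtx} : x ∈ Dr r ↔ nv x ≤ r ∧ r < 2 * nv x := by
  unfold Dr; rw [Finset.mem_filter, mem_bxn]

theorem card_Dr_le {r : ℕ} (hr : 1 ≤ r) : (Dr r).card ≤ 9 * r ^ 2 := by
  have h1 : (Dr r).card ≤ (bx r).card := Finset.card_le_card (Finset.filter_subset _ _)
  rw [card_bxn] at h1
  nlinarith

theorem le_card_Dr (r : ℕ) : 3 * r ^ 2 ≤ (Dr r).card := by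
  have h1 : bx r ⊆ Dr r ∪ bx (r / 2) := by
    intro x hx
    rw [Finset.mem_union, mem_Dr, mem_bxn]
    rw [mem_bxn] at hx
    omega
  have h2 := (Finset.card_le_card h1).trans (Finset.card_union_le _ _)
  rw [card_bxn, card_bxn] at h2
  have h3 : 2 * (r / 2) ≤ r := Nat.mul_div_le r 2
  have h4 : (2 * (r / 2) + 1) ^ 2 ≤ (r + 1) ^ 2 := Nat.pow_le_pow_left (by omega) 2
  nlinarith

theorem t_snd (hSec : S_SECM) : S_SND := by
  intro A b hA hb
  obtain ⟨C, hC, hS⟩ := hSec A hA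
  refine ⟨min (3 * b / (2 * A)) (9 * b ^ 2 / (484 * C)), by positivity, ?_⟩
  intro p m r h0 h1 hm hmr hup hlow
  have hr : 1 ≤ r := hm.trans hmr
  have ok : Ok (fun _ : Edg => p) := okq h0 h1
  have hμ : (0 : ℝ) < m := by exact_mod_cast hm
  have hrr : (0 : ℝ) < r := by exact_mod_cast hr
  have hmr' : (m : ℝ) ≤ r := by exact_mod_cast hmr
  set e : ℝ := (m : ℝ) ^ (-(5/48) : ℝ) with he
  have he0 : 0 < e := Real.rpow_pos_of_pos hμ _
  have e1 : (m : ℝ) ^ (-(5/24) : ℝ) = e ^ 2 := by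
    rw [he, ← Real.rpow_natCast, ← Real.rpow_mul hμ.le]; norm_num
  have e2 : (m : ℝ) ^ (91/48 : ℝ) = (m : ℝ) ^ 2 * e := by
    rw [he, ← Real.rpow_natCast, ← Real.rpow_add hμ]; norm_num
  set N : ℕ := 9 * r ^ 2 / m ^ 2 + 1 with hN
  have hdiv := Nat.div_add_mod (9 * r ^ 2) (m ^ 2)
  have hmod := Nat.mod_lt (9 * r ^ 2) (y := m ^ 2) (by positivity)
  have hN1 : 9 * r ^ 2 ≤ N * m ^ 2 := by
    rw [hN, add_mul, one_mul, mul_comm (9 * r ^ 2 / m ^ 2)]; omega
  have hN2 : m ^ 2 * (N + 1) ≤ 11 * r ^ 2 := by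
    have : m ^ 2 * (N + 1) = m ^ 2 * (9 * r ^ 2 / m ^ 2) + 2 * m ^ 2 := by rw [hN]; ring
    have h5 : m ^ 2 ≤ r ^ 2 := Nat.pow_le_pow_left hmr 2
    have h6 : m ^ 2 * (9 * r ^ 2 / m ^ 2) ≤ 9 * r ^ 2 := Nat.mul_div_le _ _
    omega
  have hN3 : (m : ℝ) ^ 2 * ((N : ℝ) + 1) ≤ 11 * (r : ℝ) ^ 2 := by exact_mod_cast hN2
  have hsec := hS p m N (Dr r) (boxE (3 * r)) h0 h1 hm hup ((card_Dr_le hr).trans hN1) (by
    rw [mem_Dr]; unfold nv; simp)
  rw [e2] at hsec
  set X : Finset Edg → ℝ := fun F => ∑ x ∈ Dr r, ind (TP x F) with hX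
  have hX0 : ∀ F, 0 ≤ X F := fun F => Finset.sum_nonneg (fun x _ => ind_nonneg _)
  have g1 : 3 * (r : ℝ) ^ 2 * (b * e ^ 2) ≤ Ex (fun _ => p) (boxE (3 * r)) X := by
    rw [hX, Ex_sum]
    calc 3 * (r : ℝ) ^ 2 * (b * e ^ 2) ≤ ((Dr r).card : ℝ) * (b * e ^ 2) := by
          apply mul_le_mul_of_nonneg_right _ (by positivity)
          exact_mod_cast le_card_Dr r
      _ = ∑ x ∈ Dr r, (b * e ^ 2) := by rw [Finset.sum_const, nsmul_eq_mul]
      _ ≤ _ := by
          apply Finset.sum_le_sum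
          intro x hx
          rw [mem_Dr] at hx
          have := hlow x hx.2 hx.1
          rw [e1] at this
          exact this
  have g2 : Ex (fun _ => p) (boxE (3 * r)) (fun F => (X F) ^ 2) ≤ 121 * C * e ^ 3 * (r : ℝ) ^ 4 := by
    have q1 : Ex (fun _ => p) (boxE (3 * r)) (fun F => (X F) ^ 2) =
        ∑ x ∈ Dr r, ∑ y ∈ Dr r, Pr (fun _ => p) (boxE (3 * r))
          (fun F => Reach (↑F : Set Edg) (0, 0) x ∧ Reach (↑F : Set Edg) (0, 0) y) := by
      have : ∀ F : Finset Edg, (X F) ^ 2 = ∑ x ∈ Dr r, ∑ y ∈ Dr r,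
          ind (Reach (↑F : Set Edg) (0, 0) x ∧ Reach (↑F : Set Edg) (0, 0) y) := by
        intro F
        rw [hX, pow_two, Finset.sum_mul_sum]
        apply Finset.sum_congr rfl
        intro x _
        apply Finset.sum_congr rfl
        intro y _
        rw [ind_and]; rfl
      rw [Ex_congr (fun F _ => this F), Ex_sum]
      apply Finset.sum_congr rfl
      intro x _
      rw [Ex_sum]; rfl
    rw [q1]
    refine hsec.trans ?_
    have q2 : (m : ℝ) ^ 2 * e * ((N : ℝ) + 1) ≤ 11 * (r : ℝ) ^ 2 * e := by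
      have := mul_le_mul_of_nonneg_right hN3 he0.le
      nlinarith
    have q3 : ((m : ℝ) ^ 2 * e * ((N : ℝ) + 1)) ^ 2 ≤ (11 * (r : ℝ) ^ 2 * e) ^ 2 :=
      pow_le_pow_left₀ (by positivity) q2 2
    calc C * e * ((m : ℝ) ^ 2 * e * ((N : ℝ) + 1)) ^ 2 ≤ C * e * (11 * (r : ℝ) ^ 2 * e) ^ 2 :=
          mul_le_mul_of_nonneg_left q3 (by positivity)
      _ = 121 * C * e ^ 3 * (r : ℝ) ^ 4 := by ring
  have g3 : Pr (fun _ => p) (boxE (3 * r)) (fun F => 0 < X F) ≤ A * e := by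
    have q1 := hup m hm le_rfl
    refine le_trans ?_ q1
    refine le_trans (Pr_mono ok ?_) (arm_bound h0 h1 (boxE (3 * r)) (0, 0) ((m - 1) / 2))
    intro F _ hF
    have : ∃ x ∈ Dr r, 0 < ind (TP x F) := by
      by_contra hcon
      push Not at hcon
      exact absurd hF (not_lt.mpr (Finset.sum_nonpos hcon))
    obtain ⟨x, hx, hx2⟩ := this
    have hx3 : TP x F := by
      by_contra h; rw [ind_not_of h] at hx2; exact lt_irrefl _ hx2
    refine ⟨x, ?_, hx3⟩
    rw [mem_Dr] at hx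
    unfold nv at hx
    simp only
    omega
  have main := second_moment ok (boxE (3 * r)) X hX0 (U := A * e) (M := 3 * (r : ℝ) ^ 2 * (b * e ^ 2))
    (by positivity) (by positivity) g1 g2 g3
  have hev : Pr (fun _ => p) (boxE (3 * r))
      (fun F => 3 * (r : ℝ) ^ 2 * (b * e ^ 2) / (2 * (A * e)) ≤ X F) ≤
      Pr (fun _ => p) (boxE (3 * r)) (fun F => min (3 * b / (2 * A)) (9 * b ^ 2 / (484 * C)) *
        (r : ℝ) ^ 2 * e ≤ ((cF (3 * r) F).card : ℝ)) := by
    apply Pr_mono ok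
    intro F _ hF
    have q1 : 3 * (r : ℝ) ^ 2 * (b * e ^ 2) / (2 * (A * e)) = 3 * b / (2 * A) * (r : ℝ) ^ 2 * e := by
      field_simp
    rw [q1] at hF
    have q2 : min (3 * b / (2 * A)) (9 * b ^ 2 / (484 * C)) * (r : ℝ) ^ 2 * e ≤
        3 * b / (2 * A) * (r : ℝ) ^ 2 * e := by
      apply mul_le_mul_of_nonneg_right _ he0.le
      exact mul_le_mul_of_nonneg_right (min_le_left _ _) (by positivity)
    refine q2.trans (hF.trans ?_)
    classical
    have q3 : X F = (((Dr r).filter (fun x => TP x F)).card : ℝ) := by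
      rw [hX, Finset.card_filter]
      push_cast
      apply Finset.sum_congr rfl
      intro x _
      by_cases h : TP x F
      · rw [ind_of h, if_pos h]
      · rw [ind_not_of h, if_neg h]
    rw [q3]
    exact_mod_cast Finset.card_le_card (by
      intro x hx
      rw [Finset.mem_filter, mem_Dr] at hx
      unfold cF
      rw [Finset.mem_filter, mem_bxn]
      exact ⟨by omega, hx.2⟩)
  refine le_trans ?_ hev
  set Q := Pr (fun _ => p) (boxE (3 * r))
      (fun F => 3 * (r : ℝ) ^ 2 * (b * e ^ 2) / (2 * (A * e)) ≤ X F) with hQ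
  have r4 : 0 < (r : ℝ) ^ 4 := by positivity
  have m1 : 9 * b ^ 2 * e * ((r : ℝ) ^ 4 * e ^ 3) ≤ 484 * C * Q * ((r : ℝ) ^ 4 * e ^ 3) := by
    nlinarith [main]
  have m2 : 9 * b ^ 2 * e ≤ 484 * C * Q := le_of_mul_le_mul_right m1 (by positivity)
  calc min (3 * b / (2 * A)) (9 * b ^ 2 / (484 * C)) * e ≤ 9 * b ^ 2 / (484 * C) * e :=
        mul_le_mul_of_nonneg_right (min_le_right _ _) he0.le
    _ = 9 * b ^ 2 * e / (484 * C) := by ring
    _ ≤ Q := by rw [div_le_iff₀ (by positivity)]; linarith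

end Pool.Agent.Run7.h591.CS
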